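import Pool.Agent.Helper98.SPR.Stmts

/-!
# ISO: goodness is a property of the ball
-/

namespace SPR

noncomputable section

open Filter Topology MeasureTheory

theorem iso_finsum_sub {V M : Type} [AddCommMonoid M] (f : V → M) (p : V → Prop)
    (hf : ∀ v, f v ≠ 0 → p v) : ∑ᶠ v, f v = ∑ᶠ v : {v // p v}, f v := by
  rw [finsum_subtype_eq_finsum_cond (f := f) p]
  apply finsum_congr
  intro v
  by_cases h : p v
  · simp [h]
  · have h0 : f v = 0 := by
      by_contra h2
      exact h (hf v h2)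
    simp [h, h0]

theorem iso_near_mono {V : Type} {c : V → V → ℕ} {x y : V} {r s : ℕ} (hrs : r ≤ s)
    (h : Near c r x y) : Near c s x y := by
  induction hrs with
  | refl => exact h
  | step _ ih => exact Or.inl ih

theorem iso_near_self {V : Type} (c : V → V → ℕ) (x : V) (r : ℕ) : Near c r x x :=
  iso_near_mono (Nat.zero_le r) (rfl : Near c 0 x x)

theorem iso_near_step {V : Type} {c : V → V → ℕ} {x y z : V} {r : ℕ}
    (h : Near c r x z) (hz : c z y ≠ 0) : Near c (r + 1) x y :=
  Or.inr ⟨z, h, hz⟩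

theorem iso_near_map {V W : Type} {n : ℕ} {c : V → V → ℕ} {x : V} {c' : W → W → ℕ} {x' : W}
    (e : {v // Near c n x v} ≃ {v // Near c' n x' v})
    (he0 : ∀ h, ((e ⟨x, h⟩ : {v // Near c' n x' v}) : W) = x')
    (hec : ∀ u v : {v // Near c n x v}, c (u : V) (v : V) = c' (e u : W) (e v : W)) :
    ∀ r ≤ n, ∀ u : {v // Near c n x v}, Near c r x (u : V) → Near c' r x' (e u : W) := by
  intro r
  induction r with
  | zero =>
      intro _ u hu
      obtain ⟨u, hun⟩ := u
      have hx : x = u := hu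
      subst hx
      exact (he0 hun).symm
  | succ r ih =>
      intro hr u hu
      rcases hu with hu | ⟨z, hz, hzu⟩
      · exact Or.inl (ih (by omega) u hu)
      · have hzn : Near c n x z := iso_near_mono (by omega) hz
        have h1 := ih (by omega) ⟨z, hzn⟩ hz
        refine Or.inr ⟨_, h1, ?_⟩
        rw [← hec ⟨z, hzn⟩ u]
        exact hzu

theorem iso_symm {V W : Type} {n : ℕ} {c : V → V → ℕ} {x : V} {c' : W → W → ℕ} {x' : W}
    (e : {v // Near c n x v} ≃ {v // Near c' n x' v})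
    (he0 : ∀ h, ((e ⟨x, h⟩ : {v // Near c' n x' v}) : W) = x')
    (hec : ∀ u v : {v // Near c n x v}, c (u : V) (v : V) = c' (e u : W) (e v : W)) :
    (∀ h, ((e.symm ⟨x', h⟩ : {v // Near c n x v}) : V) = x) ∧
    (∀ u v : {v // Near c' n x' v}, c' (u : W) (v : W) = c (e.symm u : V) (e.symm v : V)) := by
  constructor
  · intro h
    have h1 : e ⟨x, iso_near_self c x n⟩ = ⟨x', h⟩ := Subtype.ext (he0 _)
    rw [← h1, Equiv.symm_apply_apply]
  · intro u v
    rw [hec (e.symm u) (e.symm v), Equiv.apply_symm_apply, Equiv.apply_symm_apply]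

theorem ballIso_symm {V W : Type} {n : ℕ} {c : V → V → ℕ} {x : V} {c' : W → W → ℕ} {x' : W}
    (h : BallIso n c x c' x') : BallIso n c' x' c x := by
  obtain ⟨e, he0, hec⟩ := h
  obtain ⟨h1, h2⟩ := iso_symm e he0 hec
  exact ⟨e.symm, h1, h2⟩

theorem ballIso_refl {V : Type} (n : ℕ) (c : V → V → ℕ) (x : V) : BallIso n c x c x :=
  ⟨Equiv.refl _, fun _ => rfl, fun _ _ => rfl⟩

theorem ballIso_trans {V W X : Type} {n : ℕ} {c : V → V → ℕ} {x : V} {c' : W → W → ℕ} {x' : W}
    {c'' : X → X → ℕ} {x'' : X}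
    (h : BallIso n c x c' x') (h' : BallIso n c' x' c'' x'') : BallIso n c x c'' x'' := by
  obtain ⟨e, he0, hec⟩ := h
  obtain ⟨f, hf0, hfc⟩ := h'
  refine ⟨e.trans f, ?_, ?_⟩
  · intro hx
    have h1 : e ⟨x, hx⟩ = ⟨x', iso_near_self c' x' n⟩ := Subtype.ext (he0 _)
    rw [Equiv.trans_apply, h1]
    exact hf0 _
  · intro u v
    rw [hec u v, hfc (e u) (e v)]
    rfl

theorem iso_deg {V W : Type} {n : ℕ} {c : V → V → ℕ} {x : V} {c' : W → W → ℕ} {x' : W}
    (e : {v // Near c n x v} ≃ {v // Near c' n x' v})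
    (he0 : ∀ h, ((e ⟨x, h⟩ : {v // Near c' n x' v}) : W) = x')
    (hec : ∀ u v : {v // Near c n x v}, c (u : V) (v : V) = c' (e u : W) (e v : W))
    {r : ℕ} (hr : r + 1 ≤ n) (u : {v // Near c n x v}) (hu : Near c r x (u : V)) :
    deg c (u : V) = deg c' (e u : W) := by
  have hu' : Near c' r x' (e u : W) := iso_near_map e he0 hec r (by omega) u hu
  have h1 : deg c (u : V) = ∑ᶠ y : {v // Near c n x v}, c (u : V) (y : V) :=
    iso_finsum_sub _ _ (fun v hv => iso_near_mono hr (iso_near_step hu hv))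
  have h2 : deg c' (e u : W) = ∑ᶠ y : {v // Near c' n x' v}, c' (e u : W) (y : W) :=
    iso_finsum_sub _ _ (fun v hv => iso_near_mono hr (iso_near_step hu' hv))
  rw [h1, h2, ← finsum_comp_equiv e (f := fun y : {v // Near c' n x' v} => c' (e u : W) (y : W))]
  exact finsum_congr (fun y => hec u y)

theorem iso_energy_term {V : Type} {c : V → V → ℕ} (hc : ∀ x y, c x y = c y x) {R : ℕ} {x : V}
    {U : V → ℝ} (hU : ∀ v, U v ≠ 0 → Near c R x v) (u v : V) (hc0 : c u v ≠ 0) (hne : U u ≠ U v) :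
    Near c (R + 1) x u ∧ Near c (R + 1) x v := by
  by_cases h : U u = 0
  · have hv : U v ≠ 0 := fun h' => hne (by rw [h, h'])
    have h1 := hU v hv
    refine ⟨iso_near_step h1 ?_, iso_near_mono (by omega) h1⟩
    rw [hc]
    exact hc0
  · have h1 := hU u h
    exact ⟨iso_near_mono (by omega) h1, iso_near_step h1 hc0⟩

theorem iso_energy_eq {V : Type} {c : V → V → ℕ} (hc : ∀ x y, c x y = c y x) {R : ℕ} {x : V}
    {U : V → ℝ} (hU : ∀ v, U v ≠ 0 → Near c R x v) :
    Energy c U = ∑ᶠ u : {v // Near c (R + 2) x v}, ∑ᶠ v : {v // Near c (R + 2) x v},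
      (c (u : V) (v : V) : ℝ) * (U u - U v) ^ 2 := by
  have key : ∀ u v : V, (c u v : ℝ) * (U u - U v) ^ 2 ≠ 0 →
      Near c (R + 2) x u ∧ Near c (R + 2) x v := by
    intro u v h
    have h0 : c u v ≠ 0 := by
      intro h'
      apply h
      rw [h']
      simp
    have h1 : U u ≠ U v := by
      intro h'
      apply h
      rw [h']
      simp
    obtain ⟨a, b⟩ := iso_energy_term hc hU u v h0 h1
    exact ⟨iso_near_mono (by omega) a, iso_near_mono (by omega) b⟩
  unfold Energy
  have h1 : ∀ u : V, ∑ᶠ v, (c u v : ℝ) * (U u - U v) ^ 2 =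
      ∑ᶠ v : {v // Near c (R + 2) x v}, (c u (v : V) : ℝ) * (U u - U v) ^ 2 := by
    intro u
    exact iso_finsum_sub (fun v => (c u v : ℝ) * (U u - U v) ^ 2) _ (fun v hv => (key u v hv).2)
  rw [finsum_congr h1]
  apply iso_finsum_sub (fun u => ∑ᶠ v : {v // Near c (R + 2) x v}, (c u (v : V) : ℝ) * (U u - U v) ^ 2)
  intro u hu
  rw [← h1 u] at hu
  by_contra hn
  apply hu
  rw [finsum_congr (g := fun _ => (0 : ℝ)), finsum_zero]
  intro v
  by_contra h
  exact hn (key u v h).1

theorem st_ISO : ST_ISO := by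
  intro A k R V W c c' x x' hc hc' hiso hgood
  obtain ⟨e, he0, hec⟩ := hiso
  obtain ⟨hs0, hsc⟩ := iso_symm e he0 hec
  obtain ⟨U, hU01, hUx, hUs, hUE, hUg⟩ := hgood
  classical
  have hA : 0 ≤ A := le_trans (by
    unfold Energy
    exact finsum_nonneg (fun _ => finsum_nonneg (fun _ => by positivity))) hUE
  set U' : W → ℝ := fun v => if h : Near c' (R + 2) x' v then U (e.symm ⟨v, h⟩ : V) else 0 with hU'
  have hUe : ∀ u : {v // Near c' (R + 2) x' v}, U' (u : W) = U (e.symm u : V) := by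
    intro u
    simp only [hU']
    rw [dif_pos u.2]
  have hUe' : ∀ u : {v // Near c (R + 2) x v}, U' (e u : W) = U (u : V) := by
    intro u
    rw [hUe, Equiv.symm_apply_apply]
  have hUs' : ∀ v, U' v ≠ 0 → Near c' R x' v := by
    intro v hv
    by_cases h : Near c' (R + 2) x' v
    · have h1 := hUe ⟨v, h⟩
      simp only at h1
      rw [h1] at hv
      have h2 := hUs _ hv
      have h3 := iso_near_map e he0 hec R (by omega) _ h2
      rw [Equiv.apply_symm_apply] at h3
      exact h3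
    · exfalso
      apply hv
      simp only [hU']
      rw [dif_neg h]
  refine ⟨U', ?_, ?_, hUs', ?_, ?_⟩
  · intro v
    by_cases h : Near c' (R + 2) x' v
    · have h1 := hUe ⟨v, h⟩
      simp only at h1
      rw [h1]
      exact hU01 _
    · have h0 : U' v = 0 := by
        simp only [hU']
        rw [dif_neg h]
      rw [h0]
      exact ⟨le_rfl, zero_le_one⟩
  · have h1 := hUe ⟨x', iso_near_self c' x' _⟩
    simp only at h1
    rw [h1, hs0, hUx]
  · rw [iso_energy_eq hc'.1 hUs']
    rw [iso_energy_eq hc.1 hUs] at hUE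
    refine le_trans (le_of_eq ?_) hUE
    rw [← finsum_comp_equiv e]
    apply finsum_congr
    intro u
    rw [← finsum_comp_equiv e]
    apply finsum_congr
    intro v
    rw [hUe', hUe', hec u v]
  · intro y z hyz
    by_cases hne : U' y = U' z
    · rw [hne, sub_self, abs_zero]
      positivity
    · obtain ⟨hy, hz⟩ := iso_energy_term hc'.1 hUs' y z hyz hne
      have hy2 : Near c' (R + 2) x' y := iso_near_mono (by omega) hy
      have hz2 : Near c' (R + 2) x' z := iso_near_mono (by omega) hz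
      have h1 := hUe ⟨y, hy2⟩
      have h2 := hUe ⟨z, hz2⟩
      simp only at h1 h2
      have h3 := hsc ⟨y, hy2⟩ ⟨z, hz2⟩
      simp only at h3
      have d1 := iso_deg e.symm hs0 hsc (r := R + 1) (by omega) ⟨y, hy2⟩ hy
      have d2 := iso_deg e.symm hs0 hsc (r := R + 1) (by omega) ⟨z, hz2⟩ hz
      simp only at d1 d2
      rw [h1, h2, d1, d2]
      apply hUg
      rw [← h3]
      exact hyz

end

end SPR
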