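import Pool.Agent.Helper59.SPR.ISO

/-!
# REC2: good test functions at infinitely many scales imply recurrence
-/

namespace SPR

noncomputable section

open Filter Topology MeasureTheory

theorem rec2_ball_finite {V : Type} {c : V → V → ℕ} (hc : Nice c) (x : V) (r : ℕ) :
    {v | Near c r x v}.Finite := by
  induction r with
  | zero =>
      apply (Set.finite_singleton x).subset
      intro v hv
      have h : x = v := hv
      simp [h]
  | succ r ih =>
      apply (ih.union (ih.biUnion (fun z _ => hc.2 z))).subset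
      intro v hv
      rcases hv with hv | ⟨z, hz, hzv⟩
      · exact Or.inl hv
      · refine Or.inr ?_
        simp only [Set.mem_iUnion]
        exact ⟨z, hz, hzv⟩

theorem rec2_energy_eq {V : Type} {c : V → V → ℕ} (T : Finset V) (U : V → ℝ)
    (h : ∀ x y, c x y ≠ 0 → U x ≠ U y → x ∈ T ∧ y ∈ T) :
    Energy c U = ∑ x ∈ T, ∑ y ∈ T, (c x y : ℝ) * (U x - U y) ^ 2 := by
  have key : ∀ u v : V, (c u v : ℝ) * (U u - U v) ^ 2 ≠ 0 → u ∈ T ∧ v ∈ T := by
    intro u v huv
    apply h
    · intro h'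
      apply huv
      rw [h']
      simp
    · intro h'
      apply huv
      rw [h']
      simp
  unfold Energy
  have h1 : ∀ u : V, ∑ᶠ v, (c u v : ℝ) * (U u - U v) ^ 2 =
      ∑ v ∈ T, (c u v : ℝ) * (U u - U v) ^ 2 := by
    intro u
    apply finsum_eq_sum_of_support_subset
    intro v hv
    exact (key u v hv).2
  rw [finsum_congr h1]
  apply finsum_eq_sum_of_support_subset
  intro u hu
  by_contra hn
  apply hu
  apply Finset.sum_eq_zero
  intro v _
  by_contra h2
  exact hn (key u v h2).1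

theorem rec2_ball_finset {V : Type} {c : V → V → ℕ} (hc : Nice c) {o : V} {R : ℕ} {U : V → ℝ}
    (hU : ∀ v, U v ≠ 0 → Near c R o v) {n : ℕ} (hn : R + 1 ≤ n) :
    ∀ x y, c x y ≠ 0 → U x ≠ U y → x ∈ (rec2_ball_finite hc o n).toFinset ∧
      y ∈ (rec2_ball_finite hc o n).toFinset := by
  intro x y hxy hne
  obtain ⟨a, b⟩ := iso_energy_term hc.1 hU x y hxy hne
  rw [Set.Finite.mem_toFinset, Set.Finite.mem_toFinset]
  exact ⟨iso_near_mono hn a, iso_near_mono hn b⟩

theorem rec2_grad {V : Type} {c : V → V → ℕ} {o : V} {A D : ℝ} {k n : ℕ} (hA : 0 ≤ A)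
    (hk : 0 < k) {U : V → ℝ} (hUo : U o = 1)
    (hUg : ∀ x y, c x y ≠ 0 → |U x - U y| ≤ A * (1 + deg c x + deg c y) / k)
    (hD : ∀ v, Near c n o v → (deg c v : ℝ) ≤ D) :
    ∀ r ≤ n, ∀ v, Near c r o v → 1 - r * (A * (1 + 2 * D) / k) ≤ U v := by
  have hD0 : 0 ≤ D := le_trans (Nat.cast_nonneg _) (hD o (iso_near_self c o n))
  have hq : 0 ≤ A * (1 + 2 * D) / k := by positivity
  intro r
  induction r with
  | zero =>
      intro _ v hv
      have h : o = v := hv
      rw [← h, hUo]
      simp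
  | succ r ih =>
      intro hr v hv
      have hvn : Near c n o v := iso_near_mono hr hv
      rcases hv with hv | ⟨z, hz, hzv⟩
      · have h1 := ih (by omega) v hv
        push_cast
        linarith
      · have h1 := ih (by omega) z hz
        have h2 := hUg z v hzv
        have h3 : A * (1 + deg c z + deg c v) / k ≤ A * (1 + 2 * D) / k := by
          have hz1 := hD z (iso_near_mono (by omega) hz)
          have hv1 := hD v hvn
          apply div_le_div_of_nonneg_right _ (by positivity)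
          apply mul_le_mul_of_nonneg_left _ hA
          linarith
        have h4 := (abs_le.mp h2).2
        push_cast
        linarith

theorem rec2_step {V : Type} {c : V → V → ℕ} {o : V} (hc : Nice c) {A : ℝ} (hA : 0 ≤ A)
    (hg : ∀ k0 : ℕ, ∃ k ≥ k0, ∃ R, Good A k R c o) (n : ℕ) :
    ∃ (u : V → ℝ) (R : ℕ), (∀ v, u v ≠ 0 → Near c R o v) ∧ (∀ v, Near c n o v → u v = 1) ∧
      Energy c u ≤ 4 * A := by
  obtain ⟨D, hD⟩ : ∃ D : ℝ, ∀ v, Near c n o v → (deg c v : ℝ) ≤ D := by
    obtain ⟨D, hD⟩ := ((rec2_ball_finite hc o n).image (fun v => (deg c v : ℝ))).bddAbove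
    exact ⟨D, fun v hv => hD ⟨v, hv, rfl⟩⟩
  have hD0 : 0 ≤ D := le_trans (Nat.cast_nonneg _) (hD o (iso_near_self c o n))
  obtain ⟨k, hk, R, U, hU01, hUo, hUs, hUE, hUg⟩ := hg (max 1 ⌈2 * (n * (A * (1 + 2 * D)))⌉₊)
  have hk1 : 0 < k := lt_of_lt_of_le one_pos (le_trans (le_max_left _ _) hk)
  have hkr : 2 * (n * (A * (1 + 2 * D))) ≤ (k : ℝ) :=
    le_trans (Nat.le_ceil _) (by exact_mod_cast le_trans (le_max_right _ _) hk)
  have hkpos : (0 : ℝ) < k := by exact_mod_cast hk1
  refine ⟨fun v => min 1 (2 * U v), R, ?_, ?_, ?_⟩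
  · intro v hv
    apply hUs
    intro h0
    apply hv
    simp only
    rw [h0]
    simp
  · intro v hv
    have h1 := rec2_grad hA hk1 hUo hUg hD n le_rfl v hv
    have h2 : (n : ℝ) * (A * (1 + 2 * D) / k) ≤ 1 / 2 := by
      rw [← mul_div_assoc, div_le_iff₀ hkpos]
      linarith
    simp only
    apply min_eq_left
    linarith
  · have hs' : ∀ v, min 1 (2 * U v) ≠ 0 → Near c R o v := by
      intro v hv
      apply hUs
      intro h0
      apply hv
      rw [h0]
      simp
    rw [rec2_energy_eq _ _ (rec2_ball_finset hc hs' (n := R + 1) le_rfl)]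
    rw [rec2_energy_eq _ _ (rec2_ball_finset hc hUs (n := R + 1) le_rfl)] at hUE
    refine le_trans ?_ (mul_le_mul_of_nonneg_left hUE (by norm_num : (0 : ℝ) ≤ 4))
    rw [Finset.mul_sum]
    apply Finset.sum_le_sum
    intro x _
    rw [Finset.mul_sum]
    apply Finset.sum_le_sum
    intro y _
    have h1 : (min 1 (2 * U x) - min 1 (2 * U y)) ^ 2 ≤ (2 * (U x - U y)) ^ 2 := by
      apply sq_le_sq.mpr
      have h2 := abs_min_sub_min_le_max 1 (2 * U x) 1 (2 * U y)
      refine le_trans h2 ?_
      rw [sub_self, abs_zero, ← mul_sub]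
      exact le_of_eq (max_eq_right (abs_nonneg _))
    have h3 : (0 : ℝ) ≤ c x y := Nat.cast_nonneg _
    nlinarith [mul_le_mul_of_nonneg_left h1 h3]

theorem rec2_sum {V : Type} {c : V → V → ℕ} {o : V} (hc : Nice c) {A : ℝ} (hA : 0 ≤ A)
    (hg : ∀ k0 : ℕ, ∃ k ≥ k0, ∃ R, Good A k R c o) (N : ℕ) :
    ∃ (F : V → ℝ) (R : ℕ), (∀ v, F v ≠ 0 → Near c R o v) ∧ F o = N ∧
      Energy c F ≤ 4 * A * N := by
  induction N with
  | zero =>
      refine ⟨fun _ => 0, 0, fun v hv => absurd rfl hv, by simp, ?_⟩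
      rw [rec2_energy_eq ∅ (fun _ => 0) (fun x y _ h => absurd rfl h)]
      simp
  | succ N ih =>
      obtain ⟨F, R, hFs, hFo, hFE⟩ := ih
      obtain ⟨u, R', hus, hu1, huE⟩ := rec2_step hc hA hg (R + 1)
      have hm1 : R + 1 ≤ max R R' + 1 := by
        have := le_max_left R R'
        omega
      have hm2 : R' + 1 ≤ max R R' + 1 := by
        have := le_max_right R R'
        omega
      have hs : ∀ v, F v + u v ≠ 0 → Near c (max R R') o v := by
        intro v hv
        by_cases h : F v = 0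
        · have h2 : u v ≠ 0 := by
            intro h3
            apply hv
            rw [h, h3, add_zero]
          exact iso_near_mono (le_max_right _ _) (hus v h2)
        · exact iso_near_mono (le_max_left _ _) (hFs v h)
      refine ⟨fun v => F v + u v, max R R', hs, ?_, ?_⟩
      · simp only
        rw [hFo, hu1 o (iso_near_self c o _)]
        push_cast
        ring
      · rw [rec2_energy_eq _ _ (rec2_ball_finset hc hs (n := max R R' + 1) le_rfl)]
        rw [rec2_energy_eq _ _ (rec2_ball_finset hc hFs (n := max R R' + 1) hm1)] at hFE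
        rw [rec2_energy_eq _ _ (rec2_ball_finset hc hus (n := max R R' + 1) hm2)] at huE
        have hsplit : ∀ x y, (c x y : ℝ) * ((F x + u x) - (F y + u y)) ^ 2 =
            (c x y : ℝ) * (F x - F y) ^ 2 + (c x y : ℝ) * (u x - u y) ^ 2 := by
          intro x y
          by_cases h0 : c x y = 0
          · rw [h0]
            simp
          · by_cases h1 : F x = F y
            · rw [h1]
              ring
            · obtain ⟨a, b⟩ := iso_energy_term hc.1 hFs x y h0 h1
              rw [hu1 x a, hu1 y b]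
              ring
        simp only [hsplit, Finset.sum_add_distrib]
        push_cast
        linarith

theorem st_REC2 : ST_REC1 → ST_REC2 := by
  intro hrec A V c o hc hdeg hg
  apply hrec V c o hc hdeg
  intro δ hδ
  have hA : 0 ≤ A := by
    obtain ⟨k, _, R, U, _, _, _, hUE, _⟩ := hg 0
    exact le_trans (by
      unfold Energy
      exact finsum_nonneg (fun _ => finsum_nonneg (fun _ => by positivity))) hUE
  obtain ⟨N, hN⟩ := exists_nat_ge (4 * A / δ)
  obtain ⟨F, R, hFs, hFo, hFE⟩ := rec2_sum hc hA hg (N + 1)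
  have hNpos : (0 : ℝ) < ((N + 1 : ℕ) : ℝ) := by positivity
  have hs : ∀ v, F v / ((N + 1 : ℕ) : ℝ) ≠ 0 → Near c R o v := by
    intro v hv
    apply hFs
    intro h0
    apply hv
    rw [h0, zero_div]
  refine ⟨fun v => F v / ((N + 1 : ℕ) : ℝ), ?_, ?_, ?_⟩
  · exact (rec2_ball_finite hc o R).subset (fun v hv => hs v hv)
  · simp only
    rw [hFo]
    exact div_self hNpos.ne'
  · rw [rec2_energy_eq _ _ (rec2_ball_finset hc hs (n := R + 1) le_rfl)]
    rw [rec2_energy_eq _ _ (rec2_ball_finset hc hFs (n := R + 1) le_rfl)] at hFE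
    have h1 : ∑ x ∈ (rec2_ball_finite hc o (R + 1)).toFinset,
        ∑ y ∈ (rec2_ball_finite hc o (R + 1)).toFinset,
          (c x y : ℝ) * (F x / ((N + 1 : ℕ) : ℝ) - F y / ((N + 1 : ℕ) : ℝ)) ^ 2 =
        (∑ x ∈ (rec2_ball_finite hc o (R + 1)).toFinset,
        ∑ y ∈ (rec2_ball_finite hc o (R + 1)).toFinset,
          (c x y : ℝ) * (F x - F y) ^ 2) / ((N + 1 : ℕ) : ℝ) ^ 2 := by
      rw [Finset.sum_div]
      apply Finset.sum_congr rfl
      intro x _
      rw [Finset.sum_div]
      apply Finset.sum_congr rfl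
      intro y _
      rw [← sub_div, div_pow, mul_div_assoc]
    rw [h1, div_le_iff₀ (by positivity)]
    refine le_trans hFE ?_
    have h2 : 4 * A ≤ δ * ((N + 1 : ℕ) : ℝ) := by
      rw [div_le_iff₀ hδ] at hN
      push_cast
      nlinarith
    nlinarith [mul_le_mul_of_nonneg_right h2 hNpos.le]

end

end SPR
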